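import Pool.Agent.R484.SGb

/-!
# The sign conjecture is decided by one intersection number

Let `W` be a Weil cohomology theory for smooth projective varieties over any field, `X` a variety of
dimension `n`, `b⁺` the dimension of its even cohomology and `Δ` the diagonal of `X`.  Let `z` be a
cycle of codimension `n` on `X × X` with rational coefficients which has the same intersection numbers
with all cycles of codimension `n` as the even Kunneth component of the diagonal.  The gap of `z` is

  `g(z) = b⁺ - 3 (z ∘ z · Δ) + 2 (z ∘ z ∘ z · Δ)`.

1. The gap is never negative, and it is never in the interval `(0, 1]`.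
2. The sign conjecture holds for `X` if and only if `g(z) = 0`, if and only if `g(z) ≤ 1`, if and only
   if `z ∘ z` is numerically equivalent to `z`.
3. The sign conjecture holds for `X` if and only if some `z` of this kind has gap at most `1`.
-/

open CategoryTheory AlgebraicGeometry

universe u v

namespace Pool.Agent.Results.MP_56c18a_ag.GapCriterion

open Pool.Agent.H914 VarClass Obj WeilCohomology Pool.Agent.H447 Pool.Agent.H578R3.Sgn
  Pool.Agent.R484.SG

variable {k : Type u} [Field k] {𝒱 : VarClass k} {ops : CycleOps 𝒱}

/-- **One intersection number decides the sign conjecture.** -/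
theorem result (W : WeilCohomology.{u, v} ops) (X : 𝒱.Obj) :
    (∀ z, RepresentsEven W X z → 0 ≤ gap W X z ∧
      List.TFAE [SignStd W X, gap W X z = 0, gap W X z ≤ 1,
        NumEquiv ops (X.prod X) X.dim (compCyc ops z z) z]) ∧
    (SignStd W X ↔ ∃ z, RepresentsEven W X z ∧ gap W X z ≤ 1) :=
  ⟨fun _ hz => gap_criterion hz, gap_exists W X⟩

end Pool.Agent.Results.MP_56c18a_ag.GapCriterion
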