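import Pool.Agent.R911.Sq.Gen

/-!
# One Künneth component of a product implies the sign conjecture

Let `X` and `Y` be varieties of dimensions `n ≤ m` over any field and `W` a Weil cohomology theory
with a divisor on `Y` whose `m`-th power is not zero. If a single Künneth component of the diagonal
of `X × Y`, of any degree `j` with `n ≤ j ≤ n + 2 m`, is algebraic, then the sign conjecture holds
for `X`. For `Y = X` the degrees are `n ≤ j ≤ 3 n`; in particular the algebraicity of the middle
Künneth component of `X × X` implies the sign conjecture for `X`.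
-/

open CategoryTheory AlgebraicGeometry

universe u v

namespace Pool.Agent.Results.MP_56c18a_ag.OneComponentOfProduct

open Pool.Agent.H914 VarClass Obj WeilCohomology Pool.Agent.H447 Pool.Agent.R911.Kn
  Pool.Agent.R911.Sq

/-- **One algebraic Künneth component of `X × Y` implies the sign conjecture for `X`.** -/
theorem result {k : Type u} [Field k] {𝒱 : VarClass k} {ops : CycleOps 𝒱}
    (W : WeilCohomology.{u, v} ops) (X Y : 𝒱.Obj) (D : Y.Cycles) (hD : Y.IsCyc 1 D)
    (hne : W.cl Y D ^ Y.dim ≠ 0) (hXY : X.dim ≤ Y.dim) (j : ℕ) (h1 : X.dim ≤ j)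
    (h2 : j ≤ X.dim + 2 * Y.dim) (h : ComponentAlgebraic W (X.prod Y) j) : SignStd W X :=
  sign_of_component hD hne hXY h1 h2 h

end Pool.Agent.Results.MP_56c18a_ag.OneComponentOfProduct
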