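import Pool.Agent.TH133.PW.Ev

/-!
# A pointwise principle for the sign conjecture

Let `W` be a Weil cohomology theory with coefficient field `K` for smooth projective varieties over
any field, and `X` a variety of dimension `n`.  The following are equivalent.

1. The sign conjecture for `X`: the projector onto the even cohomology is given by an algebraic
   cycle with rational coefficients on `X × X`.
2. The projector onto the even cohomology is a `K`-linear combination of operators given by cycles.
3. For every single pair of a class `y` in `H^i(X)`, `i` even, and a class `y'` in `H^j(X)`, `j` odd,
   there is a `K`-linear combination `φ` of algebraic correspondences, depending on `y` and `y'`, with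
   `φ y = y` and `φ y' = 0`.
4. For all classes `y`, `w` of even degrees with sum `2 n` and classes `y'`, `w'` of odd degrees with
   sum `2 n`: if `y × w + y' × w'` is orthogonal to all algebraic cycles of codimension `n` on `X × X`,
   then `y` is orthogonal to `w`.
5. Every subspace of `H(X)` which is stable under the algebraic correspondences of degree zero is the
   sum of its even and its odd part.

So the sign conjecture is a statement on pairs of classes, with no uniformity: it can only fail for
`X` if it fails because of one even class and one odd class.
-/

open CategoryTheory AlgebraicGeometry

universe u v

namespace Pool.Agent.Results.MP_56c18a_ag.PointwisePrinciple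

open Pool.Agent.H914 VarClass Obj WeilCohomology Pool.Agent.H447 Pool.Agent.TH133.PW

variable {k : Type u} [Field k] {𝒱 : VarClass k} {ops : CycleOps 𝒱}

/-- **The pointwise principle for the sign conjecture.** -/
theorem result (W : WeilCohomology.{u, v} ops) (X : 𝒱.Obj) :
    List.TFAE [
      SignStd W X,
      EvenProjInSpan (W.gr X) (cycleOperators W X X.dim),
      SeparatesParity (W.gr X) (cycleOperators W X X.dim),
      DetectsParity W X,
      StableParity (W.gr X) (cycleOperators W X X.dim)] :=
  sign_tfae W X

end Pool.Agent.Results.MP_56c18a_ag.PointwisePrinciple
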