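import Pool.Agent.R907.SignRank

/-!
# MP_56c18a_ag: the conjecture `C⁺` is an equality of ranks

Let `X` be a smooth proper variety of dimension `n` over a field `k` and `W` a Weil cohomology theory
with coefficient field `K`, for example de Rham cohomology in characteristic zero or rational crystalline cohomology. Consider the algebraic
correspondences of degree `0` on `X` (cycles of codimension `n` on `X × X` with rational coefficients)
and three bilinear forms on them: the intersection form `(a, b) ↦ a . ᵗb`, which is the alternating
sum of traces `tr(a ∘ b | H⁺(X)) - tr(a ∘ b | H⁻(X))`, and the two forms `tr(a ∘ b | H⁺(X))` and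
`tr(a ∘ b | H⁻(X))`, which are not known to have rational values. Let `r`, `r⁺` and `r⁻` be their ranks;
`r` is the dimension of the space of the correspondences modulo numerical equivalence, a number which
does not depend on `W`.

**Theorem.** `r ≤ r⁺ + r⁻`, and `C⁺(X)` holds for `W` if and only if `r = r⁺ + r⁻`.

It is clear that `C⁺(X)` implies the equality. Conversely, suppose that `r = r⁺ + r⁻`. Then the space of
pairs of functionals `(b ↦ tr(a ∘ b | H⁺), b ↦ tr(a ∘ b | H⁻))` is the product of the two spaces, and there
is a `K`-linear combination `a` of correspondences which has on `H⁺` the traces of the identity and on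
`H⁻` the traces of zero, also after multiplication by all correspondences. So `1 - a` is nilpotent on
`H⁺` and `a` is nilpotent on `H⁻`, and `1 - (1 - a^N)^N` is the projector for large `N`. The descent from
`K` to the rational numbers is in the starting files (`TH133.PW`).
-/

universe u v

namespace Pool.Agent.Results.MP_56c18a_ag.RankCriterion

open Pool.Agent.H914 Pool.Agent.H447 Pool.Agent.R907

/-- **The sign conjecture is an equality of ranks.** -/
theorem result {k : Type u} [Field k] {𝒱 : VarClass k} {ops : CycleOps 𝒱}
    (W : WeilCohomology.{u, v} ops) (X : 𝒱.Obj) :
    RankAtMostSum W X ∧ (SignStd W X ↔ RankEqualsSum W X) :=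
  sign_rank' W X

end Pool.Agent.Results.MP_56c18a_ag.RankCriterion
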